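import Pool.Agent.Helper39_RLB.Phi
import Pool.Agent.Helper36_RF.Chr

/-!
# RLB, module G1M (helper39): the metric near the exceptional spheres
-/

noncomputable section

open scoped ContDiff Topology ENNReal RealInnerProductSpace BoundedContinuousFunction
set_option maxSynthPendingDepth 3
open Set Metric

namespace Pool.Agent.RLim.H39

open Pool.Agent.RLim Pool.Agent.RF

theorem isMetricOn_of_local {G : E4 → Bil E4} {U : Set E4} (hU : IsOpen U)
    (h : ∀ q ∈ U, ∃ (C : E4 → Bil E4) (W : Set E4), q ∈ W ∧ IsMetricOn C W ∧ ∀ x ∈ W, G x = C x) :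
    IsMetricOn G U := by
  refine ⟨hU, fun q hq => ?_, fun q hq => ?_, fun q hq => ?_⟩
  · obtain ⟨C, W, hqW, hC, he⟩ := h q hq
    have h1 : ContDiffAt ℝ ∞ C q := (hC.smooth q hqW).contDiffAt (hC.isOpen.mem_nhds hqW)
    have h2 : G =ᶠ[𝓝 q] C := by
      filter_upwards [hC.isOpen.mem_nhds hqW] with x hx using he x hx
    exact (h1.congr_of_eventuallyEq h2).contDiffWithinAt
  · obtain ⟨C, W, hqW, hC, he⟩ := h q hq
    rw [he q hqW]
    exact hC.symm q hqW
  · obtain ⟨C, W, hqW, hC, he⟩ := h q hq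
    rw [he q hqW]
    exact hC.pos q hqW

theorem cont_coord (j : Fin 4) : Continuous (fun q : E4 => q j) :=
  (EuclideanSpace.proj (𝕜 := ℝ) j : E4 →L[ℝ] ℝ).continuous

theorem isOpen_U1 : IsOpen U1 := by
  have h0 := cont_coord 0
  have h1 := cont_coord 1
  have h2 := cont_coord 2
  have h3 := cont_coord 3
  have h : Continuous (fun q : E4 => (q 0 ^ 2 + q 1 ^ 2) * (1 + q 2 ^ 2 + q 3 ^ 2)) := by
    fun_prop
  exact isOpen_lt h continuous_const

theorem isOpen_ane : IsOpen {q : E4 | q 0 ≠ 0 ∨ q 1 ≠ 0} :=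
  (isOpen_ne_fun (cont_coord 0) continuous_const).union
    (isOpen_ne_fun (cont_coord 1) continuous_const)

/-- the part of `U1` where `a ≠ 0` -/
def U1a : Set E4 := U1 ∩ {q | q 0 ≠ 0 ∨ q 1 ≠ 0}

theorem isOpen_U1a : IsOpen U1a := isOpen_U1.inter isOpen_ane

theorem norm_Phi0_lt {i : Bool} {q : E4} (hq : q ∈ U1) : ‖Phi0 i q‖ < 8 := by
  have h1 : ‖Phi0 i q‖ ^ 2 < 8 ^ 2 := by
    rw [norm_Phi0]
    have : (q 0 ^ 2 + q 1 ^ 2) * (1 + q 2 ^ 2 + q 3 ^ 2) < 64 := hq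
    linarith
  exact lt_of_pow_lt_pow_left₀ 2 (by norm_num) h1

theorem cm_ne (D : MetricData) (k : ℕ) (i : Bool) {q : E4} (hq : q ∈ U1a) (l : ℕ) :
    cm D k i q ≠ D.P l := by
  intro h
  by_cases hkl : k = l
  · subst hkl
    have h1 : D.w k • Phi0 i q = 0 := by
      have h2 : D.P k + D.w k • Phi0 i q = D.P k := h
      simpa using h2
    have h3 : Phi0 i q = 0 := (smul_eq_zero.1 h1).resolve_left (D.w_pos k).ne'
    obtain ⟨h4, h5⟩ := Phi0_eq_zero.1 h3
    rcases hq.2 with h6 | h6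
    · exact h6 h4
    · exact h6 h5
  · have h1 := D.disj k l hkl
    have h2 : dist (D.P k) (D.P l) = D.w k * ‖Phi0 i q‖ := by
      rw [← h, dist_eq_norm]
      simp only [cm, sub_add_cancel_left, norm_neg, norm_smul]
      rw [Real.norm_of_nonneg (D.w_pos k).le]
    have h3 : D.w k * ‖Phi0 i q‖ < D.w k * 8 :=
      mul_lt_mul_of_pos_left (norm_Phi0_lt hq.1) (D.w_pos k)
    have h4 := D.w_le k
    have h5 := D.w_le l
    have h6 := D.w_pos k
    have h7 := D.w_pos l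
    linarith

theorem G1_of_ne (D : MetricData) (j : ℕ) (k : Fin j) (i : Bool) {q : E4}
    (hq : q 0 ≠ 0 ∨ q 1 ≠ 0) : G1 D j k i q = pullb (D.g j) (cm D k i) q := if_pos hq

theorem G1_of_WW (D : MetricData) (j : ℕ) (k : Fin j) (i : Bool) {q : E4}
    (hq : q ∈ WW) : G1 D j k i q = Classical.choose (D.ext j k k.2 i) q := by
  by_cases h : q 0 ≠ 0 ∨ q 1 ≠ 0
  · rw [G1_of_ne D j k i h]
    exact ((Classical.choose_spec (D.ext j k k.2 i)).2 q hq h).symm
  · exact if_neg h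

theorem pull_U1a (hDif : DifStmt) (hPhi : PhiStmt) (D : MetricData) (j : ℕ) (k : ℕ) (i : Bool) :
    IsMetricOn (pullb (D.g j) (cm D k i)) U1a ∧
    ∀ y ∈ U1a, ∀ V W, ric (pullb (D.g j) (cm D k i)) y V W =
      ric (D.g j) (cm D k i y) (fderiv ℝ (cm D k i) y V) (fderiv ℝ (cm D k i) y W) := by
  refine hDif.1 (D.g j) (cm D k i) U1a {X | ∀ k < j, X ≠ D.P k} (D.metric j) isOpen_U1a
    (hPhi.2.2.2 D k i).1.contDiffOn (fun q hq l _ => cm_ne D k i hq l) fun q hq => ?_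
  have h1 : fderiv ℝ (cm D k i) q = D.w k • fderiv ℝ (Phi0 i) q := by
    ext1 V
    exact (hPhi.2.2.2 D k i).2 q V
  rw [h1]
  obtain ⟨e, he⟩ := hPhi.2.2.1 i q hq.2
  refine inv_of_inj fun V hV => ?_
  have h3 : fderiv ℝ (Phi0 i) q V = 0 :=
    (smul_eq_zero.1 (show D.w k • fderiv ℝ (Phi0 i) q V = 0 from hV)).resolve_left (D.w_pos k).ne'
  rw [← he] at h3
  exact e.injective (h3.trans (map_zero e).symm)

theorem g1m (hDif : DifStmt) (hPhi : PhiStmt) : G1mStmt := by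
  intro D j k i
  have hM : IsMetricOn (G1 D j k i) U1 := by
    refine isMetricOn_of_local isOpen_U1 fun q hq => ?_
    by_cases h : q 0 ≠ 0 ∨ q 1 ≠ 0
    · exact ⟨_, U1a, ⟨hq, h⟩, (pull_U1a hDif hPhi D j k i).1, fun x hx => G1_of_ne D j k i hx.2⟩
    · refine ⟨_, WW, ?_, (Classical.choose_spec (D.ext j k k.2 i)).1,
        fun x hx => G1_of_WW D j k i hx⟩
      push Not at h
      show (q 0 ^ 2 + q 1 ^ 2) * (1 + q 2 ^ 2 + q 3 ^ 2) < 1 / 16
      rw [h.1, h.2]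
      norm_num
  refine ⟨hM, fun q hq V => ?_⟩
  have hcont : ContinuousOn (fun q => -(G1 D j k i q V V)) U1 := by
    have h1 : ContinuousOn (G1 D j k i) U1 := hM.smooth.continuousOn
    exact ((h1.clm_apply continuousOn_const).clm_apply continuousOn_const).neg
  refine hDif.2.2 (fun q => -(G1 D j k i q V V)) (fun q => ric (G1 D j k i) q V V) U1 isOpen_U1
    hcont (hDif.2.1 _ _ hM V V) (fun x hx hxa => ?_) q hq
  have hx' : x ∈ U1a := ⟨hx, hxa⟩
  have h2 : G1 D j k i =ᶠ[𝓝 x] pullb (D.g j) (cm D k i) := by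
    filter_upwards [isOpen_U1a.mem_nhds hx'] with y hy using G1_of_ne D j k i hy.2
  show -(G1 D j k i x V V) ≤ ric (G1 D j k i) x V V
  rw [ric_congr h2, (pull_U1a hDif hPhi D j k i).2 x hx' V V, G1_of_ne D j k i hxa, pullb_apply]
  exact D.ric_ge j _ (fun l _ => cm_ne D k i hx' l) _

end Pool.Agent.RLim.H39
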