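import Pool.Agent.Helper74_RL.Stmts

/-!
# RLB, module PHI (helper39): the chart maps `Phi0` and `cm`
-/

noncomputable section

open scoped ContDiff Topology ENNReal RealInnerProductSpace BoundedContinuousFunction
set_option maxSynthPendingDepth 3
open Set Metric

namespace Pool.Agent.RLim.H39

open Pool.Agent.RLim Pool.Agent.RF

theorem cd_coord (j : Fin 4) : ContDiff ℝ ∞ (fun q : E4 => q j) :=
  (EuclideanSpace.proj (𝕜 := ℝ) j : E4 →L[ℝ] ℝ).contDiff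

theorem fd_coord (j : Fin 4) (q : E4) :
    HasFDerivAt (fun q : E4 => q j) (EuclideanSpace.proj (𝕜 := ℝ) j : E4 →L[ℝ] ℝ) q :=
  (EuclideanSpace.proj (𝕜 := ℝ) j : E4 →L[ℝ] ℝ).hasFDerivAt

theorem cd_Phi0 (i : Bool) : ContDiff ℝ ∞ (Phi0 i) := by
  rw [contDiff_euclidean]
  have h0 := cd_coord 0
  have h1 := cd_coord 1
  have h2 := cd_coord 2
  have h3 := cd_coord 3
  intro j
  cases i
  · fin_cases j
    · simpa [Phi0] using h0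
    · simpa [Phi0] using h1
    · simpa [Phi0] using (h0.mul h2).sub (h1.mul h3)
    · simpa [Phi0] using (h0.mul h3).add (h1.mul h2)
  · fin_cases j
    · simpa [Phi0] using (h0.mul h2).sub (h1.mul h3)
    · simpa [Phi0] using (h0.mul h3).add (h1.mul h2)
    · simpa [Phi0] using h0
    · simpa [Phi0] using h1

theorem fd_comp (i : Bool) (q V : E4) (j : Fin 4) {L : E4 →L[ℝ] ℝ}
    (h : HasFDerivAt (fun q => Phi0 i q j) L q) : fderiv ℝ (Phi0 i) q V j = L V := by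
  have h1 : HasFDerivAt (Phi0 i) (fderiv ℝ (Phi0 i) q) q :=
    ((cd_Phi0 i).differentiable (by simp) q).hasFDerivAt
  have h2 : HasFDerivAt (fun q => Phi0 i q j)
      ((EuclideanSpace.proj (𝕜 := ℝ) j : E4 →L[ℝ] ℝ).comp (fderiv ℝ (Phi0 i) q)) q :=
    (EuclideanSpace.proj (𝕜 := ℝ) j : E4 →L[ℝ] ℝ).hasFDerivAt.comp q h1
  have h3 := h2.unique h
  rw [← h3]
  rfl

theorem re_fd (q : E4) : HasFDerivAt (fun q : E4 => q 0 * q 2 - q 1 * q 3)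
    ((q 0 • (EuclideanSpace.proj (𝕜 := ℝ) 2 : E4 →L[ℝ] ℝ)
      + q 2 • (EuclideanSpace.proj (𝕜 := ℝ) 0 : E4 →L[ℝ] ℝ)) -
    (q 1 • (EuclideanSpace.proj (𝕜 := ℝ) 3 : E4 →L[ℝ] ℝ)
      + q 3 • (EuclideanSpace.proj (𝕜 := ℝ) 1 : E4 →L[ℝ] ℝ))) q :=
  ((fd_coord 0 q).mul (fd_coord 2 q)).sub ((fd_coord 1 q).mul (fd_coord 3 q))

theorem im_fd (q : E4) : HasFDerivAt (fun q : E4 => q 0 * q 3 + q 1 * q 2)
    ((q 0 • (EuclideanSpace.proj (𝕜 := ℝ) 3 : E4 →L[ℝ] ℝ)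
      + q 3 • (EuclideanSpace.proj (𝕜 := ℝ) 0 : E4 →L[ℝ] ℝ)) +
    (q 1 • (EuclideanSpace.proj (𝕜 := ℝ) 2 : E4 →L[ℝ] ℝ)
      + q 2 • (EuclideanSpace.proj (𝕜 := ℝ) 1 : E4 →L[ℝ] ℝ))) q :=
  ((fd_coord 0 q).mul (fd_coord 3 q)).add ((fd_coord 1 q).mul (fd_coord 2 q))

/-- the derivative of `Phi0` -/
theorem fd_Phi0 (i : Bool) (q V : E4) : fderiv ℝ (Phi0 i) q V =
    if i then WithLp.toLp 2 ![q 0 * V 2 + q 2 * V 0 - (q 1 * V 3 + q 3 * V 1),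
      q 0 * V 3 + q 3 * V 0 + (q 1 * V 2 + q 2 * V 1), V 0, V 1]
    else WithLp.toLp 2 ![V 0, V 1, q 0 * V 2 + q 2 * V 0 - (q 1 * V 3 + q 3 * V 1),
      q 0 * V 3 + q 3 * V 0 + (q 1 * V 2 + q 2 * V 1)] := by
  ext j
  cases i
  · fin_cases j
    · exact fd_comp false q V 0 (fd_coord 0 q)
    · exact fd_comp false q V 1 (fd_coord 1 q)
    · exact fd_comp false q V 2 (re_fd q)
    · exact fd_comp false q V 3 (im_fd q)
  · fin_cases j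
    · exact fd_comp true q V 0 (re_fd q)
    · exact fd_comp true q V 1 (im_fd q)
    · exact fd_comp true q V 2 (fd_coord 0 q)
    · exact fd_comp true q V 3 (fd_coord 1 q)

theorem bound_aux (a0 a1 b0 b1 A0 A1 B0 B1 : ℝ) (ha : a0 ^ 2 + a1 ^ 2 ≤ 1)
    (hb : b0 ^ 2 + b1 ^ 2 ≤ 4) :
    A0 ^ 2 + A1 ^ 2 + (a0 * B0 + b0 * A0 - (a1 * B1 + b1 * A1)) ^ 2
      + (a0 * B1 + b1 * A0 + (a1 * B0 + b0 * A1)) ^ 2 ≤ 9 * (A0 ^ 2 + A1 ^ 2 + B0 ^ 2 + B1 ^ 2) := by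
  have h1 : (a0 * B0 + b0 * A0 - (a1 * B1 + b1 * A1)) ^ 2
      + (a0 * B1 + b1 * A0 + (a1 * B0 + b0 * A1)) ^ 2 ≤
      2 * ((a0 ^ 2 + a1 ^ 2) * (B0 ^ 2 + B1 ^ 2)) + 2 * ((b0 ^ 2 + b1 ^ 2) * (A0 ^ 2 + A1 ^ 2)) := by
    nlinarith [sq_nonneg (a0 * B0 - b0 * A0 - (a1 * B1 - b1 * A1)),
      sq_nonneg (a0 * B1 - b1 * A0 + (a1 * B0 - b0 * A1))]
  have h2 : (a0 ^ 2 + a1 ^ 2) * (B0 ^ 2 + B1 ^ 2) ≤ 1 * (B0 ^ 2 + B1 ^ 2) :=
    mul_le_mul_of_nonneg_right ha (by positivity)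
  have h3 : (b0 ^ 2 + b1 ^ 2) * (A0 ^ 2 + A1 ^ 2) ≤ 4 * (A0 ^ 2 + A1 ^ 2) :=
    mul_le_mul_of_nonneg_right hb (by positivity)
  nlinarith [sq_nonneg B0, sq_nonneg B1]

theorem norm_fd_Phi0 (i : Bool) (q V : E4) (ha : q 0 ^ 2 + q 1 ^ 2 ≤ 1)
    (hb : q 2 ^ 2 + q 3 ^ 2 ≤ 4) : ‖fderiv ℝ (Phi0 i) q V‖ ^ 2 ≤ 9 * ‖V‖ ^ 2 := by
  rw [fd_Phi0, norm_sq4, norm_sq4 V]
  have h := bound_aux (q 0) (q 1) (q 2) (q 3) (V 0) (V 1) (V 2) (V 3) ha hb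
  cases i
  · simp only [Bool.false_eq_true, if_false]
    simp
    linarith
  · simp only [if_true]
    simp
    linarith

/-- an injective endomorphism is invertible -/
theorem inv_of_inj {f : E4 →L[ℝ] E4} (h : ∀ V, f V = 0 → V = 0) : f.IsInvertible := by
  have hinj : Function.Injective f.toLinearMap := (injective_iff_map_eq_zero f.toLinearMap).2 h
  refine ⟨(LinearEquiv.ofInjectiveEndo f.toLinearMap hinj).toContinuousLinearEquiv, ?_⟩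
  ext x
  rfl

theorem inj_aux {a0 a1 b0 b1 B0 B1 : ℝ} (ha : a0 ≠ 0 ∨ a1 ≠ 0)
    (h1 : a0 * B0 + b0 * 0 - (a1 * B1 + b1 * 0) = 0)
    (h2 : a0 * B1 + b1 * 0 + (a1 * B0 + b0 * 0) = 0) : B0 = 0 ∧ B1 = 0 := by
  have h3 : 0 < a0 ^ 2 + a1 ^ 2 := by
    rcases ha with h | h <;> positivity
  have h4 : (a0 ^ 2 + a1 ^ 2) * B0 = 0 := by linear_combination a0 * h1 + a1 * h2
  have h5 : (a0 ^ 2 + a1 ^ 2) * B1 = 0 := by linear_combination a0 * h2 - a1 * h1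
  exact ⟨(mul_eq_zero.1 h4).resolve_left h3.ne', (mul_eq_zero.1 h5).resolve_left h3.ne'⟩

theorem inv_fd_Phi0 (i : Bool) (q : E4) (ha : q 0 ≠ 0 ∨ q 1 ≠ 0) :
    (fderiv ℝ (Phi0 i) q).IsInvertible := by
  refine inv_of_inj fun V hV => ?_
  rw [fd_Phi0] at hV
  have e : ∀ j, (if i then (WithLp.toLp 2 ![q 0 * V 2 + q 2 * V 0 - (q 1 * V 3 + q 3 * V 1),
      q 0 * V 3 + q 3 * V 0 + (q 1 * V 2 + q 2 * V 1), V 0, V 1] : E4)
    else WithLp.toLp 2 ![V 0, V 1, q 0 * V 2 + q 2 * V 0 - (q 1 * V 3 + q 3 * V 1),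
      q 0 * V 3 + q 3 * V 0 + (q 1 * V 2 + q 2 * V 1)]) j = 0 := by
    intro j
    rw [hV]
    rfl
  cases i
  · have e0 : V 0 = 0 := e 0
    have e1 : V 1 = 0 := e 1
    have e2 : q 0 * V 2 + q 2 * V 0 - (q 1 * V 3 + q 3 * V 1) = 0 := e 2
    have e3 : q 0 * V 3 + q 3 * V 0 + (q 1 * V 2 + q 2 * V 1) = 0 := e 3
    rw [e0, e1] at e2 e3
    obtain ⟨h2, h3⟩ := inj_aux ha e2 e3
    ext j
    fin_cases j
    · exact e0
    · exact e1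
    · exact h2
    · exact h3
  · have e0 : V 0 = 0 := e 2
    have e1 : V 1 = 0 := e 3
    have e2 : q 0 * V 2 + q 2 * V 0 - (q 1 * V 3 + q 3 * V 1) = 0 := e 0
    have e3 : q 0 * V 3 + q 3 * V 0 + (q 1 * V 2 + q 2 * V 1) = 0 := e 1
    rw [e0, e1] at e2 e3
    obtain ⟨h2, h3⟩ := inj_aux ha e2 e3
    ext j
    fin_cases j
    · exact e0
    · exact e1
    · exact h2
    · exact h3

theorem phi : PhiStmt := by
  refine ⟨cd_Phi0, norm_fd_Phi0, inv_fd_Phi0, fun D k i => ⟨?_, fun q V => ?_⟩⟩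
  · exact contDiff_const.add ((cd_Phi0 i).const_smul (D.w k))
  · have h1 : HasFDerivAt (Phi0 i) (fderiv ℝ (Phi0 i) q) q :=
      ((cd_Phi0 i).differentiable (by simp) q).hasFDerivAt
    have h2 : HasFDerivAt (cm D k i) (D.w k • fderiv ℝ (Phi0 i) q) q :=
      (h1.const_smul (D.w k)).const_add (D.P k)
    rw [h2.fderiv]
    rfl

end Pool.Agent.RLim.H39
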